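import Pool.Agent.Lib.MP_b5021c_nt.IfaceSF
import Pool.Agent.Lib.MP_b5021c_nt.B.H18.DVC

/-!
# Board b5, stage 3, row SF_DIC: arithmetic dichotomy for a coefficient of class `P`
-/

namespace Pool.Agent.B5.SF.H74

open scoped LaurentPolynomial
open Polynomial
open Pool.Agent.B5

theorem cpz_mul (p q : ℤ[X]) : cpz (p * q) = cpz p * cpz q := Polynomial.map_mul _

theorem cpz_inj {p q : ℤ[X]} (h : cpz p = cpz q) : p = q :=
  Polynomial.map_injective (Coef.emb : ℤ →+* ℂ) emb_inj h

theorem cpz_coeff (p : ℤ[X]) (n : ℕ) : (cpz p).coeff n = ((p.coeff n : ℤ) : ℂ) := by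
  unfold cpz
  rw [Polynomial.coeff_map]
  exact eq_intCast _ _

theorem cpz_C (n : ℤ) : cpz (C n) = C (n : ℂ) := by
  unfold cpz
  rw [Polynomial.map_C]
  congr 1

theorem cpz_ne_zero {p : ℤ[X]} (h : p ≠ 0) : cpz p ≠ 0 := H45.map_emb_ne_zero h

theorem cpz_lc (p : ℤ[X]) : (cpz p).leadingCoeff = ((p.leadingCoeff : ℤ) : ℂ) := by
  unfold cpz
  rw [Polynomial.leadingCoeff_map_of_injective emb_inj p]
  exact eq_intCast _ _

/-- An irreducible factor with a given zero. -/
theorem exists_factor (v : ℤ[X]) (hv : v ≠ 0) (a : ℂ) (ha : (cpz v).eval a = 0) :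
    ∃ p W : ℤ[X], Irreducible p ∧ v = p * W ∧ (cpz p).eval a = 0 := by
  obtain ⟨u, hu⟩ := UniqueFactorizationMonoid.factors_prod hv
  obtain ⟨φ, hφ⟩ : ∃ φ : ℤ[X] →+* ℂ, ∀ q, φ q = (cpz q).eval a :=
    ⟨(evalRingHom a).comp (mapRingHom (Coef.emb : ℤ →+* ℂ)), fun q => rfl⟩
  have h2 : φ (UniqueFactorizationMonoid.factors v).prod * φ (u : ℤ[X]) = 0 := by
    rw [← map_mul, hu, hφ, ha]
  have h3 : φ (u : ℤ[X]) ≠ 0 := (u.isUnit.map φ).ne_zero
  have h4 := (mul_eq_zero.mp h2).resolve_right h3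
  rw [map_multiset_prod, Multiset.prod_eq_zero_iff, Multiset.mem_map] at h4
  obtain ⟨p, hp, hp0⟩ := h4
  obtain ⟨W, hW⟩ := UniqueFactorizationMonoid.dvd_of_mem_factors hp
  exact ⟨p, W, UniqueFactorizationMonoid.irreducible_of_factor p hp, hW, by rw [← hφ, hp0]⟩

/-- An irreducible polynomial with leading coefficient a unit divides every polynomial with a
common zero. -/
theorem dvd_of_common (p P : ℤ[X]) (hirr : Irreducible p) (hu : IsUnit p.leadingCoeff) (z0 : ℂ)
    (h1 : (cpz p).eval z0 = 0) (h2 : (cpz P).eval z0 = 0) : p ∣ P := by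
  have e : ∀ q : ℤ[X], Polynomial.aeval z0 q = (cpz q).eval z0 := by
    intro q
    rw [Polynomial.aeval_def, Polynomial.eval₂_eq_eval_map]
    rfl
  obtain ⟨w, hw⟩ := hu
  have hint : IsIntegral ℤ z0 := by
    refine ⟨C ((w⁻¹ : ℤˣ) : ℤ) * p, ?_, ?_⟩
    · rw [Polynomial.Monic, Polynomial.leadingCoeff_mul, Polynomial.leadingCoeff_C, ← hw,
        Units.inv_mul]
    · have := e (C ((w⁻¹ : ℤˣ) : ℤ) * p)
      rw [cpz_mul, Polynomial.eval_mul, h1, mul_zero] at this
      exact this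
  have d1 : minpoly ℤ z0 ∣ p := minpoly.isIntegrallyClosed_dvd hint (by rw [e, h1])
  have d2 : minpoly ℤ z0 ∣ P := minpoly.isIntegrallyClosed_dvd hint (by rw [e, h2])
  obtain ⟨k, hk⟩ := d1
  rcases hirr.isUnit_or_isUnit hk with h3 | h3
  · exact absurd h3 (minpoly.not_isUnit ℤ z0)
  · obtain ⟨k', hk'⟩ := h3
    have : p ∣ minpoly ℤ z0 := by
      refine ⟨((k'⁻¹ : ℤ[X]ˣ) : ℤ[X]), ?_⟩
      rw [hk, ← hk', mul_assoc, Units.mul_inv, mul_one]
    exact this.trans d2

/-- Removing a factor of the denominator. -/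
theorem int_factor (P v r u : ℂ[X]) (hv : v ≠ 0) (h : v = r * u)
    (hi : CircleIntegrable (fun z => P.eval z / v.eval z) 0 1) :
    CircleIntegrable (fun z => P.eval z / u.eval z) 0 1 := by
  have h1 := CircleIntegrable.fun_mul_continuousOn hi
    (r.continuous.continuousOn (s := Metric.sphere (0 : ℂ) |1|))
  refine CircleIntegrable.congr_codiscreteWithin ?_ h1
  have hfin : {z : ℂ | v.eval z = 0}.Finite := by
    refine (v.roots.toFinset.finite_toSet).subset ?_
    intro z hz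
    simp only [Finset.mem_coe, Multiset.mem_toFinset]
    exact (Polynomial.mem_roots hv).mpr hz
  filter_upwards [compl_finite_mem_codiscreteWithin
    (s := Metric.sphere (0 : ℂ) |1|) hfin] with z hz
  have hz1 : v.eval z ≠ 0 := hz
  rw [h, Polynomial.eval_mul] at hz1 ⊢
  have a1 := left_ne_zero_of_mul hz1
  have a2 := right_ne_zero_of_mul hz1
  field_simp

theorem unit_coeff_mul {p W : ℤ[X]} (h : |(p * W).coeff 0| = 1) :
    |p.coeff 0| = 1 ∧ |W.coeff 0| = 1 := by
  rw [Polynomial.mul_coeff_zero, ← Int.isUnit_iff_abs_eq] at h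
  exact ⟨Int.isUnit_iff_abs_eq.mp (isUnit_of_mul_isUnit_left h),
    Int.isUnit_iff_abs_eq.mp (isUnit_of_mul_isUnit_right h)⟩

theorem norm_emb {n : ℤ} (h : |n| = 1) : ‖(Coef.emb n : ℂ)‖ = 1 := by
  have : (Coef.emb n : ℂ) = (n : ℂ) := eq_intCast _ _
  rw [this, Complex.norm_intCast]
  exact_mod_cast h

/-- The factor with roots `1/T'`, `T'` only. -/
theorem quad (p W : ℤ[X]) (T' : ℝ) (hT : 1 < |T'|) (h0 : |p.coeff 0| = 1)
    (hu : IsUnit p.leadingCoeff) (hp : p ≠ 0)
    (hr : ∀ ρ ∈ (cpz p).roots, ρ = ((T'⁻¹ : ℝ) : ℂ) ∨ ρ = (T' : ℂ))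
    (ha : (cpz p).eval ((T'⁻¹ : ℝ) : ℂ) = 0)
    (hd : (derivative (cpz p)).eval ((T'⁻¹ : ℝ) : ℂ) ≠ 0) :
    ∃ h : ℤ, (h : ℝ) = T' + T'⁻¹ ∧ (1 - C h * X + X ^ 2) ∣ p * W := by
  have hT0 : T' ≠ 0 := by
    rintro rfl
    simp at hT
    linarith
  have hTc : (T' : ℂ) ≠ 0 := by exact_mod_cast hT0
  obtain ⟨a, haa⟩ : ∃ a : ℂ, a = ((T'⁻¹ : ℝ) : ℂ) := ⟨_, rfl⟩
  rw [← haa] at hr ha hd
  have haT : a * (T' : ℂ) = 1 := by
    rw [haa, Complex.ofReal_inv, inv_mul_cancel₀ hTc]
  have hna : ‖a‖ = |T'|⁻¹ := by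
    rw [haa, Complex.norm_real, Real.norm_eq_abs, abs_inv]
  have hnT : ‖(T' : ℂ)‖ = |T'| := by
    rw [Complex.norm_real, Real.norm_eq_abs]
  have hne : a ≠ (T' : ℂ) := by
    intro h
    have h1 := congrArg norm h
    rw [hna, hnT] at h1
    have h2 : |T'|⁻¹ < 1 := inv_lt_one_of_one_lt₀ hT
    linarith
  obtain ⟨k, hk⟩ : ∃ k, k = (cpz p).roots.count a := ⟨_, rfl⟩
  obtain ⟨l, hl⟩ : ∃ l, l = (cpz p).roots.count (T' : ℂ) := ⟨_, rfl⟩
  have hR : (cpz p).roots = Multiset.replicate k a + Multiset.replicate l (T' : ℂ) := by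
    ext x
    rw [Multiset.count_add, Multiset.count_replicate, Multiset.count_replicate]
    by_cases h1 : a = x
    · subst h1
      rw [if_pos rfl, if_neg (Ne.symm hne), hk, add_zero]
    · by_cases h2 : (T' : ℂ) = x
      · subst h2
        rw [if_neg h1, if_pos rfl, hl, zero_add]
      · rw [if_neg h1, if_neg h2, add_zero, Multiset.count_eq_zero]
        intro h3
        rcases hr x h3 with h4 | h4
        · exact h1 h4.symm
        · exact h2 h4.symm
  have hcp := cpz_ne_zero hp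
  have hk1 : k = 1 := by
    have h1 : 0 < k := by
      rw [hk, Multiset.count_pos]
      exact (Polynomial.mem_roots hcp).mpr ha
    have h2 : ¬ 1 < k := by
      intro h
      rw [hk, Polynomial.count_roots, Polynomial.one_lt_rootMultiplicity_iff_isRoot hcp] at h
      exact hd h.2
    omega
  have hul : ‖(cpz p).leadingCoeff‖ = 1 := by
    rw [cpz_lc, Complex.norm_intCast]
    have := Int.isUnit_iff_abs_eq.mp hu
    exact_mod_cast this
  have hl1 : l = 1 := by
    have hs := (IsAlgClosed.splits (cpz p)).coeff_zero_eq_leadingCoeff_mul_prod_roots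
    have hn := congrArg norm hs
    rw [cpz_coeff, norm_mul, norm_mul, norm_pow, norm_neg, norm_one, one_pow, one_mul, hul,
      one_mul, hR, Multiset.prod_add, Multiset.prod_replicate, Multiset.prod_replicate, norm_mul,
      norm_pow, norm_pow, hna, hnT, hk1, pow_one, Complex.norm_intCast] at hn
    have h0' : |((p.coeff 0 : ℤ) : ℝ)| = 1 := by exact_mod_cast h0
    rw [h0'] at hn
    have hpos : (0 : ℝ) < |T'| := by linarith
    have h3 : |T'| ^ l = |T'| ^ 1 := by
      rw [pow_one]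
      field_simp at hn
      linarith
    exact (pow_right_inj₀ hpos (by linarith [hT] |> ne_of_gt)).mp h3
  have hprod : cpz p = C (cpz p).leadingCoeff * ((X - C a) * (X - C (T' : ℂ))) := by
    have h1 := (IsAlgClosed.splits (cpz p)).eq_prod_roots
    rw [hR, hk1, hl1] at h1
    simpa using h1
  obtain ⟨w, hw⟩ := hu
  have hww : (((w : ℤ)) : ℂ) * (((w : ℤ)) : ℂ) = 1 := by
    have : (w : ℤ) * (w : ℤ) = 1 := by rw [← Units.val_mul, Int.units_mul_self, Units.val_one]
    exact_mod_cast this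
  have e : (X - C a) * (X - C (T' : ℂ)) = 1 - C (a + T') * X + X ^ 2 := by
    have h1 : (C a : ℂ[X]) * C (T' : ℂ) = 1 := by rw [← C_mul, haT, C_1]
    rw [C_add]
    linear_combination h1
  rw [cpz_lc, ← hw, e] at hprod
  have hc1 : ((p.coeff 1 : ℤ) : ℂ) = -((w : ℤ) : ℂ) * (a + T') := by
    rw [← cpz_coeff, hprod, coeff_C_mul]
    simp [coeff_one, coeff_X_pow]
    ring
  have hh : ((-(w : ℤ) * p.coeff 1 : ℤ) : ℂ) = a + T' := by
    push_cast
    rw [hc1]
    linear_combination (a + T') * hww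
  refine ⟨-(w : ℤ) * p.coeff 1, ?_, ?_⟩
  · have h1 : (((-(w : ℤ) * p.coeff 1 : ℤ) : ℝ) : ℂ) = ((T' + T'⁻¹ : ℝ) : ℂ) := by
      rw [Complex.ofReal_intCast, hh, haa]
      push_cast
      ring
    exact_mod_cast h1
  · have h1 : p = C (w : ℤ) * (1 - C (-(w : ℤ) * p.coeff 1) * X + X ^ 2) := by
      apply cpz_inj
      rw [cpz_mul, cpz_C]
      have h2 : cpz (1 - C (-(w : ℤ) * p.coeff 1) * X + X ^ 2) = 1 - C (a + T') * X + X ^ 2 := by
        rw [← hh, ← cpz_C]
        unfold cpz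
        rw [Polynomial.map_add, Polynomial.map_sub, Polynomial.map_one, Polynomial.map_mul,
          Polynomial.map_X, Polynomial.map_pow, Polynomial.map_X]
      rw [h2]
      exact hprod
    refine ⟨C (w : ℤ) * W, ?_⟩
    calc p * W = (C (w : ℤ) * (1 - C (-(w : ℤ) * p.coeff 1) * X + X ^ 2)) * W := by rw [← h1]
      _ = _ := by ring

theorem core (v : ℤ[X]) (T' : ℝ) (s : ℂ[X]) (h0 : |v.coeff 0| = 1) (hT : 1 < |T'|)
    (hs : cpz v = (1 - C (T' : ℂ) * X) * s) (hz : ZF s) :
    (∃ h : ℤ, (h : ℝ) = T' + T'⁻¹ ∧ (1 - C h * X + X ^ 2) ∣ v) ∨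
    ∀ P : ℤ[X], v ∣ P * v.reverse →
      CircleIntegrable (fun z => (cpz P).eval z / (cpz v).eval z) 0 1 → v ∣ P := by
  have hT0 : T' ≠ 0 := by
    rintro rfl
    simp at hT
    linarith
  have hTc : (T' : ℂ) ≠ 0 := by exact_mod_cast hT0
  obtain ⟨a, haa⟩ : ∃ a : ℂ, a = ((T'⁻¹ : ℝ) : ℂ) := ⟨_, rfl⟩
  have haT : (T' : ℂ) * a = 1 := by
    rw [haa, Complex.ofReal_inv, mul_inv_cancel₀ hTc]
  have hna : ‖a‖ < 1 := by
    rw [haa, Complex.norm_real, Real.norm_eq_abs, abs_inv]
    exact inv_lt_one_of_one_lt₀ hT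
  have hv0 : v ≠ 0 := by
    rintro rfl
    simp at h0
  have hva : (cpz v).eval a = 0 := by
    rw [hs, eval_mul, eval_sub, eval_one, eval_mul, eval_C, eval_X, haT, sub_self, zero_mul]
  have huniq : ∀ z : ℂ, ‖z‖ < 1 → (cpz v).eval z = 0 → z = a := by
    intro z hz1 hz2
    rw [hs, eval_mul, eval_sub, eval_one, eval_mul, eval_C, eval_X] at hz2
    have h1 := (mul_eq_zero.mp hz2).resolve_right (hz z hz1)
    have h2 : (T' : ℂ) * (z - a) = 0 := by linear_combination -h1 - haT
    exact sub_eq_zero.mp ((mul_eq_zero.mp h2).resolve_left hTc)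
  obtain ⟨p, W, hirr, hvW, hpa⟩ := exists_factor v hv0 a hva
  have hdv : (derivative (cpz v)).eval a = -(T' : ℂ) * s.eval a := by
    rw [hs, derivative_mul]
    simp only [derivative_sub, derivative_one, derivative_mul, derivative_C, derivative_X,
      zero_mul, mul_one, zero_add, zero_sub, eval_add, eval_mul, eval_neg, eval_C, eval_sub,
      eval_one, eval_X]
    rw [haT]
    ring
  have hdv0 : (derivative (cpz v)).eval a ≠ 0 := by
    rw [hdv]
    exact mul_ne_zero (neg_ne_zero.mpr hTc) (hz a hna)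
  have hdpW : (derivative (cpz v)).eval a = (derivative (cpz p)).eval a * (cpz W).eval a := by
    rw [hvW, cpz_mul, derivative_mul, eval_add, eval_mul, eval_mul, hpa, zero_mul, add_zero]
  rw [hdpW] at hdv0
  have hWa : (cpz W).eval a ≠ 0 := right_ne_zero_of_mul hdv0
  have hdp : (derivative (cpz p)).eval a ≠ 0 := left_ne_zero_of_mul hdv0
  have hWz : ∀ z : ℂ, ‖z‖ < 1 → (cpz W).eval z ≠ 0 := by
    intro z hz1 hz2
    have h1 : z = a := huniq z hz1 (by rw [hvW, cpz_mul, eval_mul, hz2, mul_zero])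
    rw [h1] at hz2
    exact hWa hz2
  have h0' := h0
  rw [hvW] at h0'
  have hcoef := unit_coeff_mul h0'
  rw [or_iff_not_imp_left]
  intro hno P hd hi
  have hvc := cpz_ne_zero hv0
  have hW0 : W ≠ 0 := by
    rintro rfl
    exact hv0 (by rw [hvW, mul_zero])
  have hp0 : p ≠ 0 := hirr.ne_zero
  have hiW := int_factor (cpz P) (cpz v) (cpz p) (cpz W) hvc (by rw [hvW, cpz_mul]) hi
  have hWP : W ∣ P := H18.dvd_poly (norm_emb hcoef.2) hWz
    (H18.dvd_of_circleIntegrable _ _ _ rfl (cpz_ne_zero hW0)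
      (H18.unit_lead (norm_emb hcoef.2) hWz).2 hiW)
  have hsuff : p ∣ P → v ∣ P := by
    intro hp
    obtain ⟨P1, hP1⟩ := hWP
    rw [hP1] at hp
    rcases hirr.prime.dvd_or_dvd hp with h1 | h1
    · exfalso
      obtain ⟨k, hk⟩ := h1
      apply hWa
      rw [hk, cpz_mul, eval_mul, hpa, zero_mul]
    · obtain ⟨k, hk⟩ := h1
      exact ⟨k, by rw [hP1, hk, hvW]; ring⟩
  apply hsuff
  rcases hirr.prime.dvd_or_dvd ((Dvd.intro W hvW.symm).trans hd) with h1 | h1
  · exact h1
  have hul : IsUnit p.leadingCoeff := by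
    obtain ⟨r, hr⟩ := h1
    have h2 : v.reverse.leadingCoeff = v.coeff 0 := by
      rw [reverse_leadingCoeff, trailingCoeff, natTrailingDegree_eq_zero.mpr (Or.inr ?_)]
      intro h3
      rw [h3] at h0
      simp at h0
    rw [hr, leadingCoeff_mul] at h2
    exact isUnit_of_mul_isUnit_left (h2 ▸ Int.isUnit_iff_abs_eq.mpr h0)
  by_cases hu : ∃ z0 : ℂ, ‖z0‖ = 1 ∧ (cpz p).eval z0 = 0
  · obtain ⟨z0, hz0, hz1⟩ := hu
    obtain ⟨r, hr⟩ := Polynomial.dvd_iff_isRoot.mpr
      (show (cpz v).IsRoot z0 by rw [IsRoot.def, hvW, cpz_mul, eval_mul, hz1, zero_mul])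
    have hi2 := int_factor (cpz P) (cpz v) r (X - C z0) hvc (by rw [hr, mul_comm]) hi
    have hd2 : (X - C z0) ∣ cpz P := by
      refine H18.dvd_of_circleIntegrable _ _ _ rfl (X_sub_C_ne_zero z0) ?_ hi2
      intro z hz
      rw [roots_X_sub_C, Multiset.mem_singleton] at hz
      rw [hz, hz0]
    exact dvd_of_common p P hirr hul z0 hz1 (dvd_iff_isRoot.mp hd2)
  · exfalso
    apply hno
    rw [hvW]
    rw [haa] at hpa hdp
    refine quad p W T' hT hcoef.1 hul hp0 ?_ hpa hdp
    rw [← haa] at hpa hdp ⊢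
    intro ρ hρ
    have hρ0 : (cpz p).eval ρ = 0 := (mem_roots (cpz_ne_zero hp0)).mp hρ
    rcases lt_trichotomy ‖ρ‖ 1 with h2 | h2 | h2
    · left
      exact huniq ρ h2 (by rw [hvW, cpz_mul, eval_mul, hρ0, zero_mul])
    · exact absurd ⟨ρ, h2, hρ0⟩ hu
    · right
      have hρn : ρ ≠ 0 := by
        rintro rfl
        rw [norm_zero] at h2
        linarith
      have h3 : (cpz v.reverse).eval ρ = 0 := by
        obtain ⟨k, hk⟩ := h1
        rw [hk, cpz_mul, eval_mul, hρ0, zero_mul]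
      have h4 : (cpz v).eval ρ⁻¹ = 0 := by
        let _ : Invertible ρ⁻¹ := invertibleOfNonzero (inv_ne_zero hρn)
        have h5 := Polynomial.eval₂_reverse_eq_zero_iff (Coef.emb : ℤ →+* ℂ) ρ⁻¹ v
        rw [invOf_eq_inv, inv_inv] at h5
        unfold cpz at h3 ⊢
        rw [eval_map] at h3 ⊢
        exact h5.mp h3
      have h6 := huniq ρ⁻¹ (by rw [norm_inv]; exact inv_lt_one_of_one_lt₀ h2) h4
      rw [inv_eq_iff_eq_inv] at h6
      rw [h6, haa, Complex.ofReal_inv, inv_inv]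

/-- Row SF_DIC. -/
theorem sf_dic : DicS := by
  intro v m T' s h0 hT hs hz
  rcases core v T' s h0 hT hs hz with h | h
  · exact Or.inl h
  · right
    intro p p' heq hi
    have hv0 : v ≠ 0 := by
      rintro rfl
      simp at h0
    obtain ⟨n, P, hP⟩ := LaurentPolynomial.exists_T_pow p
    obtain ⟨n', P', hP'⟩ := LaurentPolynomial.exists_T_pow (rsh p')
    have hp : p = LaurentPolynomial.T (-(n : ℤ)) * toLaurent P := by
      rw [hP, mul_comm, mul_assoc, ← LaurentPolynomial.T_add, add_neg_cancel,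
        LaurentPolynomial.T_zero, mul_one]
    have hp' : rsh p' = LaurentPolynomial.T (-(n' : ℤ)) * toLaurent P' := by
      rw [hP', mul_comm, mul_assoc, ← LaurentPolynomial.T_add, add_neg_cancel,
        LaurentPolynomial.T_zero, mul_one]
    have hrv : rsh (LaurentPolynomial.T m * toLaurent v : RO ℤ) =
        LaurentPolynomial.T (-m) * (LaurentPolynomial.T (-(v.natDegree : ℤ)) *
          toLaurent v.reverse) := by
      rw [rsh_int, map_mul, LaurentPolynomial.invert_T, LaurentPolynomial.toLaurent_reverse]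
      congr 1
      rw [mul_comm, mul_assoc, ← LaurentPolynomial.T_add, add_neg_cancel,
        LaurentPolynomial.T_zero, mul_one]
    -- the equation for polynomials
    have hdv : v ∣ P * v.reverse := by
      rw [hp', hrv, hp] at heq
      obtain ⟨N, hN⟩ : ∃ N : ℤ, N = (n : ℤ) + m + v.natDegree - n' + m := ⟨_, rfl⟩
      have h1 : (LaurentPolynomial.T ((-N).toNat : ℤ) : RO ℤ) * toLaurent (P * v.reverse) =
          LaurentPolynomial.T (N.toNat : ℤ) * toLaurent (P' * v) := by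
        have h2 := congrArg (fun x : RO ℤ => LaurentPolynomial.T ((-N).toNat + n + m +
          v.natDegree : ℤ) * x) heq
        rw [map_mul, map_mul]
        have e1 : (LaurentPolynomial.T ((-N).toNat : ℤ) : RO ℤ) =
            LaurentPolynomial.T ((-N).toNat + n + m + v.natDegree : ℤ) *
              (LaurentPolynomial.T (-(n : ℤ)) * (LaurentPolynomial.T (-m) *
                LaurentPolynomial.T (-(v.natDegree : ℤ)))) := by
          rw [← LaurentPolynomial.T_add, ← LaurentPolynomial.T_add, ← LaurentPolynomial.T_add]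
          congr 1
          ring
        have e2 : (LaurentPolynomial.T (N.toNat : ℤ) : RO ℤ) =
            LaurentPolynomial.T ((-N).toNat + n + m + v.natDegree : ℤ) *
              (LaurentPolynomial.T (-(n' : ℤ)) * LaurentPolynomial.T m) := by
          rw [← LaurentPolynomial.T_add, ← LaurentPolynomial.T_add]
          congr 1
          have := Int.toNat_sub_toNat_neg N
          linarith
        rw [e1, e2]
        linear_combination h2
      have h3 : X ^ (-N).toNat * (P * v.reverse) = X ^ N.toNat * (P' * v) := by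
        apply toLaurent_injective
        rw [map_mul, map_mul toLaurent (X ^ N.toNat), Polynomial.toLaurent_X_pow,
          Polynomial.toLaurent_X_pow]
        exact h1
      have h4 : v ∣ X ^ (-N).toNat * (P * v.reverse) := ⟨X ^ N.toNat * P', by rw [h3]; ring⟩
      have h5 : IsCoprime v (X ^ (-N).toNat) := by
        apply IsCoprime.pow_right
        refine ⟨C (v.coeff 0), -C (v.coeff 0) * divX v, ?_⟩
        have h6 : C (v.coeff 0) * C (v.coeff 0) = (1 : ℤ[X]) := by
          rw [← C_mul, ← abs_mul_abs_self, h0]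
          simp
        have h7 := divX_mul_X_add v
        linear_combination h6 - C (v.coeff 0) * h7
      exact h5.dvd_of_dvd_mul_left h4
    have hi1 : CircleIntegrable (fun z => (cpz P).eval z / (cpz v).eval z) 0 1 := by
      have hcont : ContinuousOn (fun z : ℂ => z ^ (m + (n : ℤ))) (Metric.sphere (0 : ℂ) |1|) := by
        refine ContinuousOn.zpow₀ continuousOn_id _ ?_
        intro z hz1
        left
        rintro rfl
        simp at hz1
      have h2 := CircleIntegrable.fun_mul_continuousOn hi hcont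
      refine (circleIntegrable_congr ?_).mp h2
      intro z hz1
      have hz0 : z ≠ 0 := by
        rintro rfl
        simp at hz1
      simp only
      rw [hp, H45.evL_T_mul hz0, H45.evL_T_mul hz0, zpow_neg, zpow_add₀ hz0]
      have a1 : z ^ (n : ℤ) ≠ 0 := zpow_ne_zero _ hz0
      have a2 : z ^ m ≠ 0 := zpow_ne_zero _ hz0
      unfold cpz
      by_cases a3 : (v.map (Coef.emb : ℤ →+* ℂ)).eval z = 0
      · rw [a3]; simp
      · field_simp
    obtain ⟨w, hw⟩ := h P hdv hi1
    refine ⟨LaurentPolynomial.T (-(n : ℤ) - m) * toLaurent w, ?_⟩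
    rw [hp, hw, map_mul]
    have e : (LaurentPolynomial.T (-(n : ℤ)) : RO ℤ) =
        LaurentPolynomial.T m * LaurentPolynomial.T (-(n : ℤ) - m) := by
      rw [← LaurentPolynomial.T_add]
      congr 1
      ring
    rw [e]
    ring

end Pool.Agent.B5.SF.H74
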